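import Pool.Agent.NL.StmtsA

/-! NLO, row ACF: the new configuration of the case ALPHA. -/

set_option autoImplicit false

open MeasureTheory Filter Topology

noncomputable section

namespace Pool.Agent.NL.H68

open Pool.Agent.NL

open Classical in
theorem lam_supp (q : ℝ →₀ ℝ) (J φ : ℕ → ℝ → ℝ) (τ : ℝ) (i : ℕ) :
    (lam q J φ τ i).support ⊆ (q.support ∪ q.support.image (J i)).image (φ i) := by
  unfold lam
  refine Finsupp.support_add.trans (Finset.union_subset ?_ ?_)
  · refine Finsupp.support_smul.trans ?_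
    unfold gq
    exact Finsupp.mapDomain_support.trans (Finset.image_subset_image Finset.subset_union_left)
  · refine Finsupp.support_smul.trans ?_
    unfold hq
    refine Finsupp.mapDomain_support.trans ?_
    intro x hx
    obtain ⟨r, hr, rfl⟩ := Finset.mem_image.1 hx
    exact Finset.mem_image_of_mem _ (Finset.mem_union_right _ (Finset.mem_image_of_mem _ hr))

theorem pb_map (q : ℝ →₀ ℝ) (hq : Pb q) (f : ℝ → ℝ) : Pb (Finsupp.mapDomain f q) := by
  classical
  refine ⟨fun x => ?_, ?_⟩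
  · rw [Finsupp.mapDomain, Finsupp.sum_apply]
    refine Finset.sum_nonneg fun a _ => ?_
    show 0 ≤ (Finsupp.single (f a) (q a)) x
    rw [Finsupp.single_apply]
    split_ifs
    · exact hq.1 a
    · exact le_rfl
  · rw [Finsupp.sum_mapDomain_index (fun _ => rfl) (fun _ _ _ => rfl)]
    exact hq.2

theorem sum_eq_lc (p : ℝ →₀ ℝ) :
    (p.sum fun _ c => c) = Finsupp.linearCombination ℝ (fun _ : ℝ => (1 : ℝ)) p := by
  rw [Finsupp.linearCombination_apply]
  refine Finsupp.sum_congr fun x _ => ?_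
  rw [smul_eq_mul, mul_one]

theorem pb_lam (q : ℝ →₀ ℝ) (hq : Pb q) (J φ : ℕ → ℝ → ℝ) (τ : ℝ) (h0 : 0 ≤ τ) (h1 : τ ≤ 1)
    (i : ℕ) : Pb (lam q J φ τ i) := by
  have hg := pb_map q hq (φ i)
  have hh := pb_map q hq (fun r => φ i (J i r))
  refine ⟨fun x => ?_, ?_⟩
  · unfold lam gq Pool.Agent.NL.hq
    rw [Finsupp.add_apply, Finsupp.smul_apply, Finsupp.smul_apply, smul_eq_mul, smul_eq_mul]
    have e1 := mul_nonneg (sub_nonneg.2 h1) (hg.1 x)
    have e2 := mul_nonneg h0 (hh.1 x)
    linarith only [e1, e2]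
  · have e1 := hg.2
    have e2 := hh.2
    rw [sum_eq_lc] at e1 e2 ⊢
    unfold lam gq Pool.Agent.NL.hq
    rw [map_add, map_smul, map_smul, e1, e2, smul_eq_mul, smul_eq_mul]
    ring

/-- ACF -/
theorem acf (rcn : RcnStmt) : AcfStmt := by
  intro X _ _ f F G Ψ a ε n u q W E N ϖ J φ T y hS τ h0 h1
  classical
  have hm := hS.mv
  have hc := hS.cfg
  have hN := hm.two
  have hpu := hc.pb u hS.hu
  -- the sets of the children
  obtain ⟨S, hSdef⟩ : ∃ S : ℕ → Finset ℝ, S = fun i =>
      ((q u).support ∪ (q u).support.image (J i)).image (φ i) := ⟨_, rfl⟩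
  have hsub : ∀ i, (lam (q u) J φ τ i).support ⊆ S i := by
    intro i
    rw [hSdef]
    intro x hx
    have h := lam_supp (q u) J φ τ i hx
    obtain ⟨s, hs, rfl⟩ := Finset.mem_image.1 h
    refine Finset.mem_image_of_mem _ ?_
    rcases Finset.mem_union.1 hs with h2 | h2
    · exact Finset.mem_union_left _ h2
    · obtain ⟨r, hr, rfl⟩ := Finset.mem_image.1 h2
      exact Finset.mem_union_right _ (Finset.mem_image_of_mem _ hr)
  have hsuc : ∀ i, i < N → T (i + 1) = T i ∪ S i := by
    intro i hi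
    rw [hSdef, hm.suc i hi]
  have hmono : ∀ i j, i ≤ j → j ≤ N → T i ⊆ T j := by
    intro i j hij
    induction j, hij using Nat.le_induction with
    | base => intro _; exact Finset.Subset.refl _
    | succ j hj ih =>
      intro hjN
      rw [hsuc j (by omega)]
      exact (ih (by omega)).trans Finset.subset_union_left
  have hST : ∀ i, i < N → S i ⊆ T (i + 1) := by
    intro i hi
    rw [hsuc i hi]
    exact Finset.subset_union_right
  have hdis : ∀ i, i < N → ∀ x ∈ S i, x ∉ T i := by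
    intro i hi x hx
    rw [hSdef] at hx
    obtain ⟨s, hs, rfl⟩ := Finset.mem_image.1 hx
    refine hm.new i hi s ?_
    rcases Finset.mem_union.1 hs with h2 | h2
    · exact Finset.mem_union_left _ h2
    · obtain ⟨r, hr, rfl⟩ := Finset.mem_image.1 h2
      exact Finset.mem_union_right _ (Finset.mem_image_of_mem _ hr)
  have hnR : ∀ i, i < N → ¬ Rch G Ψ a (S i) := by
    intro i hi
    have h := hm.nR i hi
    refine (rcn X G Ψ a _ h).2.2 _ ?_
    rw [hSdef]
  -- the leaves
  obtain ⟨L, hL⟩ : ∃ L, L = NE.Ln n u q fun j => lam (q u) J φ τ (ci N j) := ⟨_, rfl⟩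
  rw [← hL]
  have hcase : ∀ k, k < n + (N - 1) → (k < n ∧ k ≠ u ∧ L k = q k) ∨
      ∃ i, i < N ∧ L k = lam (q u) J φ τ i ∧ ((k = u ∧ i = N - 1) ∨ (n ≤ k ∧ i = k - n ∧ i < N - 1)) := by
    intro k hk
    rw [hL]
    unfold NE.Ln
    by_cases h2 : k < n
    · rw [if_pos h2]
      by_cases h3 : k = u
      · rw [if_pos h3]
        refine Or.inr ⟨N - 1, by omega, ?_, Or.inl ⟨h3, rfl⟩⟩
        show lam (q u) J φ τ (ci N 0) = _
        unfold ci
        rw [if_pos rfl]
      · rw [if_neg h3]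
        exact Or.inl ⟨h2, h3, rfl⟩
    · rw [if_neg h2]
      refine Or.inr ⟨k - n, by omega, ?_, Or.inr ⟨by omega, rfl, by omega⟩⟩
      show lam (q u) J φ τ (ci N (k - n + 1)) = _
      unfold ci
      rw [if_neg (by omega), Nat.add_sub_cancel]
  have hW : ∀ k, k < n → ∀ i, i ≤ N → (q k).support ⊆ T i := by
    intro k hk i hi
    exact (hc.sub k hk).trans (hm.WT.trans (hmono 0 i (by omega) hi))
  have hql : ∀ k, k < n → ∀ i, i < N → Disjoint (q k).support (lam (q u) J φ τ i).support := by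
    intro k hk i hi
    rw [Finset.disjoint_left]
    intro x hx hx'
    exact hdis i hi x (hsub i hx') (hW k hk i (by omega) hx)
  have hll : ∀ i j, i < j → j < N → Disjoint (lam (q u) J φ τ i).support
      (lam (q u) J φ τ j).support := by
    intro i j hij hj
    rw [Finset.disjoint_left]
    intro x hx hx'
    exact hdis j hj x (hsub j hx')
      (hmono (i + 1) j (by omega) (by omega) (hST i (by omega) (hsub i hx)))
  refine ⟨hm.gn N le_rfl, ?_, ?_, ?_, ?_⟩
  · intro k hk
    rcases hcase k hk with ⟨h2, -, h3⟩ | ⟨i, hi, h3, -⟩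
    · rw [h3]
      exact hc.pb k h2
    · rw [h3]
      exact pb_lam (q u) hpu J φ τ h0 h1 i
  · intro k hk
    rcases hcase k hk with ⟨h2, -, h3⟩ | ⟨i, hi, h3, -⟩
    · rw [h3]
      exact hW k h2 N le_rfl
    · rw [h3]
      exact (hsub i).trans ((hST i hi).trans (hmono (i + 1) N (by omega) le_rfl))
  · intro k hk
    rcases hcase k hk with ⟨h2, -, h3⟩ | ⟨i, hi, h3, -⟩
    · rw [h3]
      exact hc.nr k h2
    · rw [h3]
      exact (rcn X G Ψ a _ (hnR i hi)).2.2 _ (hsub i)
  · intro k hk l hl hkl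
    rcases hcase k hk with ⟨h2, -, h3⟩ | ⟨i, hi, h3, h4⟩
    · rcases hcase l hl with ⟨h5, -, h6⟩ | ⟨j, hj, h6, -⟩
      · rw [h3, h6]
        exact hc.dis k h2 l h5 hkl
      · rw [h3, h6]
        exact hql k h2 j hj
    · rcases hcase l hl with ⟨h5, -, h6⟩ | ⟨j, hj, h6, h7⟩
      · rw [h3, h6]
        exact (hql l h5 i hi).symm
      · rw [h3, h6]
        have hij : i ≠ j := by
          rcases h4 with ⟨e1, e2⟩ | ⟨e1, e2, e3⟩ <;> rcases h7 with ⟨e4, e5⟩ | ⟨e4, e5, e6⟩ <;>
            omega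
        rcases Nat.lt_or_gt_of_ne hij with h8 | h8
        · exact hll i j h8 hj
        · exact (hll j i h8 hi).symm

end Pool.Agent.NL.H68
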